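import Pool.Agent.Work.MP_2738db_nt_ZZ.Interface

/-!
Block STR of the third base theorem (MP_2738db): the two factors of `x ^ p - Y ^ p = c ^ k`.
-/

set_option autoImplicit false

namespace Pool.Agent.Work.MP_2738db_nt_ZZ.helper83

open Finset

/-- primes dividing the cofactor but not the difference are `1` modulo `p` -/
lemma prime_mod (p : ℕ) (x Y : ℤ) (hp : p.Prime) (r : ℕ) (hr : r.Prime)
    (h1 : (r : ℤ) ∣ x ^ p - Y ^ p) (h2 : ¬ (r : ℤ) ∣ x - Y) : r % p = 1 := by
  have : Fact r.Prime := ⟨hr⟩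
  have : Fact p.Prime := ⟨hp⟩
  have hpow : (x : ZMod r) ^ p = (Y : ZMod r) ^ p := by
    have := (ZMod.intCast_zmod_eq_zero_iff_dvd _ r).2 h1
    push_cast at this
    exact sub_eq_zero.1 this
  have hne : (x : ZMod r) ≠ (Y : ZMod r) := by
    intro h
    apply h2
    apply (ZMod.intCast_zmod_eq_zero_iff_dvd _ r).1
    push_cast
    rw [h, sub_self]
  have hY : (Y : ZMod r) ≠ 0 := by
    intro h0
    have hx : (x : ZMod r) = 0 := by
      rw [h0, zero_pow hp.ne_zero] at hpow
      exact pow_eq_zero_iff hp.ne_zero |>.1 hpow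
    exact hne (by rw [hx, h0])
  have hu : ((x : ZMod r) / Y) ^ p = 1 := by
    rw [div_pow, hpow, div_self (pow_ne_zero _ hY)]
  have hu1 : ((x : ZMod r) / Y) ≠ 1 := by
    intro h
    exact hne ((div_eq_one_iff_eq hY).1 h)
  have hord : orderOf ((x : ZMod r) / Y) = p := orderOf_eq_prime hu hu1
  have hu0 : ((x : ZMod r) / Y) ≠ 0 := by
    intro h
    rw [h, zero_pow hp.ne_zero] at hu
    exact zero_ne_one hu
  have hd : p ∣ r - 1 := by
    rw [← hord]
    exact orderOf_dvd_of_pow_eq_one (ZMod.pow_card_sub_one_eq_one hu0)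
  obtain ⟨t, ht⟩ := hd
  have hr1 : r = 1 + p * t := by have := hr.two_le; omega
  rw [hr1, Nat.add_mul_mod_self_left, Nat.mod_eq_of_lt hp.one_lt]

/-- **STR** -/
theorem str : Stmt_Str := by
  intro p x Y c k hp hp3 hco hc hk h
  have hodd : Odd p := hp.odd_of_ne_two (by omega)
  have hck : 0 < (c : ℤ) ^ k := by positivity
  have hlt : Y < x := by
    have : Y ^ p < x ^ p := by linarith
    exact (hodd.strictMono_pow).lt_iff_lt.1 this
  set S : ℤ := ∑ i ∈ range p, x ^ i * Y ^ (p - 1 - i) with hS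
  have hfac : S * (x - Y) = (c : ℤ) ^ k := by
    rw [hS, (Commute.all x Y).geom_sum₂_mul, h]
  have hSpos : 0 < S := by
    have h1 : 0 < S * (x - Y) := by rw [hfac]; exact hck
    exact (pos_iff_pos_of_mul_pos h1).2 (by linarith)
  obtain ⟨D, hD⟩ := Int.eq_ofNat_of_zero_le (show 0 ≤ x - Y by linarith)
  obtain ⟨F, hF⟩ := Int.eq_ofNat_of_zero_le hSpos.le
  have hD1 : 1 ≤ D := by omega
  have hF1 : 1 ≤ F := by omega
  have hprod : D * F = c ^ k := by
    have : (F : ℤ) * (D : ℤ) = (c : ℤ) ^ k := by rw [← hF, ← hD]; exact hfac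
    have h2 : ((D * F : ℕ) : ℤ) = ((c ^ k : ℕ) : ℤ) := by push_cast; linarith
    exact_mod_cast h2
  -- no prime divides both `x - Y` and `Y`
  have hrY : ∀ r : ℕ, r.Prime → r ∣ D → ¬ (r : ℤ) ∣ Y := by
    intro r hr hrD hrY
    have h1 : (r : ℤ) ∣ x - Y := by rw [hD]; exact_mod_cast hrD
    have h2 : (r : ℤ) ∣ x := by
      have := dvd_add h1 hrY
      simpa using this
    have h3 := hco.isUnit_of_dvd' h2 hrY
    have h4 : (r : ℤ) = 1 := Int.eq_one_of_dvd_one (by positivity) (isUnit_iff_dvd_one.1 h3)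
    have h5 : r = 1 := by exact_mod_cast h4
    exact hr.one_lt.ne' h5
  -- a common prime is `p`
  have hcomm : ∀ r : ℕ, r.Prime → r ∣ D → r ∣ F → r = p := by
    intro r hr hrD hrF
    have h1 : (r : ℤ) ∣ x - Y := by rw [hD]; exact_mod_cast hrD
    have h2 : (r : ℤ) ∣ S := by rw [hF]; exact_mod_cast hrF
    have h3 := (dvd_geom_sum₂_iff_of_dvd_sub h1 (n := p)).1 h2
    have hrp : Prime (r : ℤ) := Nat.prime_iff_prime_int.1 hr
    rcases hrp.dvd_or_dvd h3 with h4 | h4
    · have h5 : r ∣ p := by exact_mod_cast h4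
      exact (Nat.prime_dvd_prime_iff_eq hr hp).1 h5
    · exact absurd (hrp.dvd_of_dvd_pow h4) (hrY r hr hrD)
  have hrest : ∀ r : ℕ, r.Prime → r ∣ F → ¬ r ∣ D → r % p = 1 := by
    intro r hr hrF hrD
    apply prime_mod p x Y hp r hr
    · rw [h, ← hfac, hF]
      exact Dvd.dvd.mul_right (by exact_mod_cast hrF) _
    · rw [hD]
      intro h1
      exact hrD (by exact_mod_cast h1)
  by_cases hpc : p ∣ c
  · -- `p ∣ c`
    have hpD : p ∣ D := by
      by_contra hpD
      have h1 : p % p = 1 := by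
        apply hrest p hp _ hpD
        have : p ∣ D * F := by rw [hprod]; exact dvd_pow hpc (by omega)
        exact (hp.dvd_mul.1 this).resolve_left hpD
      simp at h1
    obtain ⟨b, hb⟩ := hpD
    have hxY : x = Y + (p : ℤ) * (b : ℤ) := by
      have : x - Y = (p : ℤ) * (b : ℤ) := by rw [hD, hb]; push_cast; ring
      linarith
    have hsq : ((p : ℤ)) ^ 2 ∣ S - (p : ℤ) * Y ^ (p - 1) := by
      have := odd_sq_dvd_geom_sum₂_sub (R := ℤ) (a := Y) (b := (b : ℤ)) (p := p) hodd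
      rw [← hxY] at this
      exact this
    have hpY : ¬ (p : ℤ) ∣ Y := hrY p hp ⟨b, hb⟩
    have hpp : Prime (p : ℤ) := Nat.prime_iff_prime_int.1 hp
    have hpS : (p : ℤ) ∣ S := by
      have h1 : (p : ℤ) ∣ S - (p : ℤ) * Y ^ (p - 1) := (Dvd.intro_left _ (by ring : (p : ℤ) * p = (p : ℤ) ^ 2)).trans hsq
      have h2 := dvd_add h1 (Dvd.intro (Y ^ (p - 1)) rfl : (p : ℤ) ∣ (p : ℤ) * Y ^ (p - 1))
      simpa using h2
    have hpF : p ∣ F := by rw [hF] at hpS; exact_mod_cast hpS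
    obtain ⟨G, hG⟩ := hpF
    have hpG : ¬ p ∣ G := by
      rintro ⟨g, hg⟩
      have h1 : ((p : ℤ)) ^ 2 ∣ S := ⟨(g : ℤ), by rw [hF, hG, hg]; push_cast; ring⟩
      have h2 : ((p : ℤ)) ^ 2 ∣ (p : ℤ) * Y ^ (p - 1) := by
        have := dvd_sub h1 hsq
        simpa using this
      have h3 : (p : ℤ) ∣ Y ^ (p - 1) := by
        rw [pow_two] at h2
        exact (mul_dvd_mul_iff_left hpp.ne_zero).1 h2
      exact hpY (hpp.dvd_of_dvd_pow h3)
    have hprod' : (p * D) * G = c ^ k := by rw [← hprod, hG]; ring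
    have hcop : Nat.Coprime (p * D) G := by
      apply Nat.Coprime.symm
      apply Nat.coprime_of_dvd
      intro r hr hrG hrD
      rcases hr.dvd_mul.1 hrD with h1 | h1
      · have := (Nat.prime_dvd_prime_iff_eq hr hp).1 h1
        subst this
        exact hpG hrG
      · have := hcomm r hr h1 (hG ▸ Dvd.dvd.mul_left hrG p)
        subst this
        exact hpG hrG
    obtain ⟨d, hd⟩ := exists_eq_pow_of_mul_eq_pow (Nat.isUnit_iff.2 hcop) hprod'
    obtain ⟨z, hz⟩ := exists_eq_pow_of_mul_eq_pow (Nat.isUnit_iff.2 hcop.symm)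
      (by rw [mul_comm]; exact hprod' : G * (p * D) = c ^ k)
    have hk0 : k ≠ 0 := by omega
    have hcdz : c = d * z := by
      have : c ^ k = (d * z) ^ k := by rw [mul_pow, ← hd, ← hz, hprod']
      exact Nat.pow_left_injective hk0 this
    have hpd : p ∣ d := by
      apply hp.dvd_of_dvd_pow (n := k)
      rw [← hd]
      exact Dvd.intro D rfl
    have hcdz' : Nat.Coprime d z := by
      have h1 : Nat.Coprime (d ^ k) (z ^ k) := by rw [← hd, ← hz]; exact hcop
      exact (Nat.coprime_pow_left_iff (by omega) _ _).1 ((Nat.coprime_pow_right_iff (by omega) _ _).1 h1)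
    refine ⟨d, z, D, hcdz, hD, hD1, hcdz', ?_, ?_, Or.inr ⟨hpd, hd, ?_⟩⟩
    · intro r hr hrz
      have hrG : r ∣ G := by rw [hz]; exact dvd_pow hrz hk0
      apply hrest r hr (hG ▸ Dvd.dvd.mul_left hrG p)
      intro hrD
      have := Nat.Coprime.eq_one_of_dvd (hcop.coprime_dvd_left (Dvd.dvd.mul_left hrD p)) hrG
      exact hr.one_lt.ne' this
    · intro r hr hrD
      apply hr.dvd_of_dvd_pow (n := k)
      rw [← hd]
      exact Dvd.dvd.mul_left hrD p
    · rw [← hprod, hG, hz]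
  · -- `¬ p ∣ c`
    have hpD : ∀ r : ℕ, r.Prime → r ∣ D → r ∣ c := by
      intro r hr hrD
      apply hr.dvd_of_dvd_pow (n := k)
      rw [← hprod]
      exact Dvd.dvd.mul_right hrD F
    have hcop : Nat.Coprime D F := by
      apply Nat.coprime_of_dvd
      intro r hr hrD hrF
      have := hcomm r hr hrD hrF
      subst this
      exact hpc (hpD r hr hrD)
    obtain ⟨d, hd⟩ := exists_eq_pow_of_mul_eq_pow (Nat.isUnit_iff.2 hcop) hprod
    obtain ⟨z, hz⟩ := exists_eq_pow_of_mul_eq_pow (Nat.isUnit_iff.2 hcop.symm)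
      (by rw [mul_comm]; exact hprod : F * D = c ^ k)
    have hk0 : k ≠ 0 := by omega
    have hcdz : c = d * z := by
      have : c ^ k = (d * z) ^ k := by rw [mul_pow, ← hd, ← hz, hprod]
      exact Nat.pow_left_injective hk0 this
    have hcdz' : Nat.Coprime d z := by
      have h1 : Nat.Coprime (d ^ k) (z ^ k) := by rw [← hd, ← hz]; exact hcop
      exact (Nat.coprime_pow_left_iff (by omega) _ _).1 ((Nat.coprime_pow_right_iff (by omega) _ _).1 h1)
    refine ⟨d, z, D, hcdz, hD, hD1, hcdz', ?_, ?_, Or.inl ⟨hd, hpc, ?_⟩⟩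
    · intro r hr hrz
      have hrF : r ∣ F := by rw [hz]; exact dvd_pow hrz hk0
      apply hrest r hr hrF
      intro hrD
      have := Nat.Coprime.eq_one_of_dvd (hcop.coprime_dvd_left hrD) hrF
      exact hr.one_lt.ne' this
    · intro r hr hrD
      apply hr.dvd_of_dvd_pow (n := k)
      rw [← hd]
      exact hrD
    · rw [← hprod, hz]

end Pool.Agent.Work.MP_2738db_nt_ZZ.helper83
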